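import Mathlib
import Pool.Agent.Q25.AM.Main

namespace Pool.Agent.Results.MP_e1ef61_al.NotQuasivariety

open Q25.AM

/-- The class of amiable semigroups avoiding `F` is not axiomatised by any set of
quasi-identities in the signature `(·, l, r)`. -/
theorem result : ¬ ∃ Q : Set QuasiId, ∀ (A : Type) (s : Alg A),
    (∀ q ∈ Q, Sat s q) ↔ (IsAmiable s ∧ AvoidsF s) :=
  main

end Pool.Agent.Results.MP_e1ef61_al.NotQuasivariety
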